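import Pool.Agent.Q109.SP.C
import Pool.Agent.Q109.SP.E

/-!
# Condition (N) does not imply that `ℤ_(p)G` is semiperfect

The counterexample is the dicyclic group `G` of order `12` and `p = 2`. The two simple
`F_2 G`-modules (of dimensions one and two) are reductions of simple `ℚG`-modules, so condition (N)
holds. The rational quaternion algebra `ℚ(ω) ⊕ ℚ(ω) j` is a division ring which is split at `2`; the
image of `ℤ_(2)G` in it has the quotient ring `M_2(F_2)`, and a rank one idempotent of `M_2(F_2)`
does not lift.
-/

set_option autoImplicit false

namespace Pool.Agent.Results.MP_70eb0a_al.DicyclicTwelve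

open Pool.Agent.Q109.SP

/-- For the dicyclic group of order `12` and `p = 2` condition (N) holds, but `ℤ_(2)G` is not
semiperfect. -/
theorem result :
    ConditionN (QuaternionGroup 3) 2 ∧
      ¬ IsSemiperfect (MonoidAlgebra (ZLoc 2) (QuaternionGroup 3)) :=
  ⟨conditionN, not_semiperfect⟩

end Pool.Agent.Results.MP_70eb0a_al.DicyclicTwelve
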